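import Pool.Agent.Helper48.FB.Defs

/-!
# FB-4: sums of the densities
-/

set_option autoImplicit false

namespace Pool.Agent.Helper85.FB

open Finset
open Pool.Agent.Helper48.FB

lemma dens_le (L x : ℕ) : dens L x ≤ 4 * √L / √((x : ℝ) + 1) := by
  unfold Helper48.FB.dens
  refine (min_le_right _ _).trans (le_of_eq ?_)
  rw [Real.sqrt_div (by positivity), Real.sqrt_mul (by norm_num)]
  congr 2
  rw [show (16 : ℝ) = 4 ^ 2 by norm_num, Real.sqrt_sq (by norm_num)]

lemma dens_le_pow (L x : ℕ) {c : ℝ} (hc : 0 < c) (h : c ^ 2 ≤ (x : ℝ) + 1) :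
    dens L x ≤ 4 * √L / c := by
  refine (dens_le L x).trans ?_
  have h1 : c ≤ √((x : ℝ) + 1) := Real.le_sqrt_of_sq_le h
  exact div_le_div_of_nonneg_left (by positivity) hc h1

/-- FB-A3c -/
theorem window_dens_le (L y h : ℕ) :
    ∑ x ∈ Ico y (y + h), dens L x ≤ 4 * √L * h / 2 ^ (Nat.log 2 y / 2) := by
  have h1 : ∀ x ∈ Ico y (y + h), dens L x ≤ 4 * √L / 2 ^ (Nat.log 2 y / 2) := by
    intro x hx
    rw [mem_Ico] at hx
    refine dens_le_pow L x (by positivity) ?_
    have h2 : (2 ^ (Nat.log 2 y / 2)) ^ 2 ≤ x + 1 := by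
      rcases Nat.eq_zero_or_pos y with h0 | h0
      · subst h0
        simp
      · calc (2 ^ (Nat.log 2 y / 2)) ^ 2 = 2 ^ (Nat.log 2 y / 2 * 2) := by rw [← pow_mul]
          _ ≤ 2 ^ Nat.log 2 y := Nat.pow_le_pow_right (by norm_num) (Nat.div_mul_le_self _ _)
          _ ≤ y := Nat.pow_log_le_self 2 h0.ne'
          _ ≤ x + 1 := by omega
    exact_mod_cast h2
  refine (sum_le_sum h1).trans (le_of_eq ?_)
  rw [sum_const, Nat.card_Ico, Nat.add_sub_cancel_left, nsmul_eq_mul]
  ring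

/-- FB-A3d -/
theorem card_dens_le (L z : ℕ) (Z : Finset ℕ) (hZ : ∀ x ∈ Z, 2 ^ z ≤ x) :
    ∑ x ∈ Z, dens L x ≤ Z.card * √(16 * L / 2 ^ z) := by
  rw [← nsmul_eq_mul, ← sum_const]
  refine sum_le_sum fun x hx => ?_
  unfold Helper48.FB.dens
  refine (min_le_right _ _).trans (Real.sqrt_le_sqrt ?_)
  have h1 : (2 : ℝ) ^ z ≤ x := by exact_mod_cast hZ x hx
  exact div_le_div_of_nonneg_left (by positivity) (by positivity) (by linarith)

lemma tele (m r : ℕ) (hm : 0 < m) : ∀ N : ℕ,
    ∑ x ∈ (range N).filter (fun x => m ≤ x ∧ x % m = r),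
      (√((x : ℝ) + 1) - √(((x - m : ℕ) : ℝ) + 1)) ≤ √(N : ℝ) := by
  intro N
  induction N using Nat.strong_induction_on with
  | _ N ih =>
    rcases N with _ | N
    · simp
    · rw [range_add_one, filter_insert]
      split_ifs with h
      · rw [sum_insert (by simp)]
        have h1 : (range N).filter (fun x => m ≤ x ∧ x % m = r) =
            (range (N - m + 1)).filter (fun x => m ≤ x ∧ x % m = r) := by
          ext x
          simp only [mem_filter, mem_range]
          constructor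
          · rintro ⟨h2, h3, h4⟩
            refine ⟨?_, h3, h4⟩
            by_contra h5
            push Not at h5
            have h6 : x ≡ N [MOD m] := h4.trans h.2.symm
            have h7 : m ∣ N - x := (Nat.modEq_iff_dvd' h2.le).1 h6
            have h8 := Nat.le_of_dvd (by omega) h7
            omega
          · rintro ⟨h2, h3, h4⟩
            exact ⟨by omega, h3, h4⟩
        rw [h1]
        have h2 := ih (N - m + 1) (by omega)
        push_cast at h2 ⊢
        linarith
      · refine (ih N (by omega)).trans (Real.sqrt_le_sqrt ?_)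
        push_cast
        linarith

/-- FB-A3e (`m` is a modulus, `x ≥ m`) -/
theorem class_dens_le (L m r : ℕ) (hm : 0 < m) :
    ∑ x ∈ (range (2 ^ L)).filter (fun x => m ≤ x ∧ x % m = r), dens L x ≤
      8 * √(L * 2 ^ L) / m := by
  have hm' : (0 : ℝ) < m := by exact_mod_cast hm
  have h1 : ∀ x ∈ (range (2 ^ L)).filter (fun x => m ≤ x ∧ x % m = r), dens L x ≤
      8 * √L / m * (√((x : ℝ) + 1) - √(((x - m : ℕ) : ℝ) + 1)) := by
    intro x hx
    have hmx : m ≤ x := (mem_filter.1 hx).2.1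
    refine (dens_le L x).trans ?_
    have hx1 : ((x - m : ℕ) : ℝ) = x - m := by
      rw [Nat.cast_sub hmx]
    rw [hx1]
    set a := √((x : ℝ) + 1) with ha
    set b := √((x : ℝ) - m + 1) with hb
    have hxm : (m : ℝ) ≤ x := by exact_mod_cast hmx
    have ha0 : 0 < a := Real.sqrt_pos.2 (by positivity)
    have hb0 : 0 ≤ b := Real.sqrt_nonneg _
    have ha2 : a ^ 2 = (x : ℝ) + 1 := Real.sq_sqrt (by positivity)
    have hb2 : b ^ 2 = (x : ℝ) - m + 1 := Real.sq_sqrt (by linarith)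
    have hab : b ≤ a := Real.sqrt_le_sqrt (by linarith)
    have h2 : (m : ℝ) = (a - b) * (a + b) := by ring_nf; rw [ha2, hb2]; ring
    have h3 : (m : ℝ) ≤ 2 * a * (a - b) := by nlinarith
    have h4 : 0 ≤ √(L : ℝ) := Real.sqrt_nonneg _
    rw [div_le_iff₀ ha0]
    have h5 : 8 * √(L : ℝ) / m * (a - b) * a = 4 * √(L : ℝ) * ((2 * a * (a - b)) / m) := by
      field_simp
      ring
    rw [h5]
    have h6 : 1 ≤ (2 * a * (a - b)) / m := by
      rw [le_div_iff₀ hm']
      linarith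
    have h7 : 0 ≤ 4 * √(L : ℝ) := by positivity
    nlinarith
  refine (sum_le_sum h1).trans ?_
  rw [← mul_sum]
  have h2 := tele m r hm (2 ^ L)
  have h3 : √(L * 2 ^ L : ℝ) = √L * √((2 ^ L : ℕ) : ℝ) := by
    rw [Real.sqrt_mul (by positivity)]
    push_cast
    rfl
  rw [h3]
  calc 8 * √(L : ℝ) / m * _ ≤ 8 * √(L : ℝ) / m * √((2 ^ L : ℕ) : ℝ) :=
        mul_le_mul_of_nonneg_left h2 (by positivity)
    _ = 8 * (√(L : ℝ) * √((2 ^ L : ℕ) : ℝ)) / m := by ring

end Pool.Agent.Helper85.FB
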